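import Mathlib

/-! # H75T, file Dih: two involutions on a finite set

`α`, `β` involutions, `α` without fixed points, `x` a fixed point of `β`: the orbit of `x` under `α` and `β` contains
exactly one other fixed point of `β`. -/

set_option autoImplicit false

namespace H75T

open Function

theorem dihedral {X : Type*} [Finite X] (α β : X → X) (hα : Involutive α) (hβ : Involutive β)
    (hfix : ∀ z, α z ≠ z) (x : X) (hx : β x = x) :
    ∃ (O : Set X) (y : X), x ∈ O ∧ y ∈ O ∧ y ≠ x ∧ (∀ z ∈ O, α z ∈ O) ∧ (∀ z ∈ O, β z ∈ O) ∧ β y = y ∧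
      ∀ z ∈ O, β z = z → z = x ∨ z = y := by
  classical
  obtain ⟨a, ha⟩ : ∃ a : Equiv.Perm X, a = hα.toPerm := ⟨_, rfl⟩
  obtain ⟨b, hb⟩ : ∃ b : Equiv.Perm X, b = hβ.toPerm := ⟨_, rfl⟩
  have ha1 : ∀ z, a z = α z := fun z => by rw [ha]; rfl
  have hb1 : ∀ z, b z = β z := fun z => by rw [hb]; rfl
  have haa : a * a = 1 := by
    ext z
    rw [Equiv.Perm.mul_apply, ha1, ha1, hα z]
    rfl
  have hbb : b * b = 1 := by
    ext z
    rw [Equiv.Perm.mul_apply, hb1, hb1, hβ z]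
    rfl
  obtain ⟨s, hs⟩ : ∃ s : Equiv.Perm X, s = b * a := ⟨_, rfl⟩
  have hainv : a⁻¹ = a := inv_eq_of_mul_eq_one_left haa
  have hbinv : b⁻¹ = b := inv_eq_of_mul_eq_one_left hbb
  have hsinv : s⁻¹ = a * b := by rw [hs, mul_inv_rev, hainv, hbinv]
  have hbs : b * s * b⁻¹ = s⁻¹ := by
    rw [hsinv, hs, hbinv]
    calc b * (b * a) * b = (b * b) * (a * b) := by group
      _ = a * b := by rw [hbb, one_mul]
  -- `b s^k = s^(-k) b`
  have hk : ∀ k : ℤ, b * s ^ k * b⁻¹ = s ^ (-k) := by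
    intro k
    have h1 : b * s ^ k * b⁻¹ = (b * s * b⁻¹) ^ k := by
      rw [conj_zpow]
    rw [h1, hbs, inv_zpow, ← zpow_neg]
  have hbx : ∀ k : ℤ, β ((s ^ k) x) = (s ^ (-k)) x := by
    intro k
    rw [← hk k, Equiv.Perm.mul_apply, Equiv.Perm.mul_apply, hbinv, hb1, hb1, hx]
  have hax : ∀ k : ℤ, α ((s ^ k) x) = (s ^ (-k - 1)) x := by
    intro k
    have h1 : a = b * s := by
      rw [hs, ← mul_assoc, hbb, one_mul]
    rw [← ha1, h1, Equiv.Perm.mul_apply, hb1, ← Equiv.Perm.mul_apply, ← zpow_one_add, hbx]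
    congr 2
    ring
  -- the period of `x`
  obtain ⟨n, hn0, hn⟩ : ∃ n : ℕ, 0 < n ∧ ∀ k : ℤ, (s ^ k) x = x ↔ (n : ℤ) ∣ k := by
    refine ⟨Function.minimalPeriod (s • ·) x, ?_, fun k => ?_⟩
    · have h1 : Function.Injective (fun z : X => s • z) := fun z w h => s.injective h
      exact Function.minimalPeriod_pos_of_mem_periodicPts (h1.mem_periodicPts x)
    · exact MulAction.zpow_smul_eq_iff_minimalPeriod_dvd (a := s) (b := x) (n := k)
  have heq : ∀ j k : ℤ, (s ^ j) x = (s ^ k) x ↔ (n : ℤ) ∣ j - k := by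
    intro j k
    rw [← hn]
    constructor
    · intro h
      rw [sub_eq_add_neg, add_comm, zpow_add, Equiv.Perm.mul_apply, h, ← Equiv.Perm.mul_apply, ← zpow_add]
      simp
    · intro h
      rw [show j = k + (j - k) by ring, zpow_add, Equiv.Perm.mul_apply, h]
  -- the period is even
  rcases Nat.even_or_odd' n with ⟨m, hm | hm⟩
  · have hm0 : 0 < m := by omega
    refine ⟨{z | ∃ k : ℤ, (s ^ k) x = z}, (s ^ (m : ℤ)) x, ⟨0, by simp⟩, ⟨m, rfl⟩, ?_, ?_, ?_, ?_, ?_⟩
    · intro h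
      have h1 := (hn m).1 h
      have h2 := Int.le_of_dvd (by exact_mod_cast hm0) h1
      have h3 : (n : ℤ) = 2 * m := by rw [hm]; push_cast; ring
      omega
    · rintro z ⟨k, rfl⟩
      exact ⟨-k - 1, (hax k).symm⟩
    · rintro z ⟨k, rfl⟩
      exact ⟨-k, (hbx k).symm⟩
    · rw [hbx, heq]
      refine ⟨-1, ?_⟩
      rw [hm]
      push_cast
      ring
    · rintro z ⟨k, rfl⟩ hz
      rw [hbx, heq] at hz
      obtain ⟨c, hc⟩ := hz
      have h3 : (n : ℤ) = 2 * m := by rw [hm]; push_cast; ring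
      rcases Int.even_or_odd' c with ⟨e, he | he⟩
      · left
        rw [hn]
        refine ⟨-e, ?_⟩
        rw [he] at hc
        linarith
      · right
        rw [heq]
        refine ⟨-e - 1, ?_⟩
        rw [he, h3] at hc
        rw [h3]
        have h4 : k = -(m * (2 * e + 1)) := by linarith
        rw [h4]
        ring
  · exfalso
    apply hfix ((s ^ (m : ℤ)) x)
    rw [hax, heq]
    refine ⟨-1, ?_⟩
    rw [hm]
    push_cast
    ring

end H75T
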