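import Mathlib

/-! # H75T, file Pair: the pairing at a vertex -/

set_option autoImplicit false

namespace H75T

open Function

/-- The sets `S`, `T` (neighbours in two graphs whose degrees are `0` or `2`) have an involution `f` which preserves the
symmetric difference, has no fixed point there, and such that exchanging `S` and `T` on an `f`-closed part `O` of the
symmetric difference gives a set with `0` or `2` elements, with `2` if `S` and `T` have `2`. -/
theorem pairing {V : Type*} [Finite V] (S T : Set V) (hS : S.ncard = 0 ∨ S.ncard = 2) (hT : T.ncard = 0 ∨ T.ncard = 2) :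
    ∃ f : V → V, Involutive f ∧ (∀ w, (w ∈ S ↔ w ∉ T) → (f w ∈ S ↔ f w ∉ T) ∧ f w ≠ w) ∧
      ∀ O : Set V, (∀ w ∈ O, (w ∈ S ↔ w ∉ T)) → (∀ w ∈ O, f w ∈ O) →
        ((S \ O ∪ T ∩ O).ncard = 0 ∨ (S \ O ∪ T ∩ O).ncard = 2) ∧
          (S.ncard = 2 → T.ncard = 2 → (S \ O ∪ T ∩ O).ncard = 2) := by
  classical
  rcases hS with hS | hS
  · have hS0 : S = ∅ := (Set.ncard_eq_zero (Set.toFinite S)).1 hS
    rcases hT with hT | hT
    · have hT0 : T = ∅ := (Set.ncard_eq_zero (Set.toFinite T)).1 hT
      refine ⟨id, fun _ => rfl, ?_, ?_⟩
      · intro w hw
        exfalso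
        rw [hS0, hT0] at hw
        simp at hw
      · intro O _ _
        rw [hS0, hT0]
        simp
    · obtain ⟨p, q, hpq, hT2⟩ := Set.ncard_eq_two.1 hT
      refine ⟨Equiv.swap p q, Equiv.swap_apply_self p q, ?_, ?_⟩
      · intro w hw
        rw [hS0, hT2] at hw ⊢
        have hw' : w = p ∨ w = q := by
          by_contra hc
          have : w ∈ (∅ : Set V) := hw.2 (by simpa using hc)
          exact this
        rcases hw' with rfl | rfl
        · rw [Equiv.swap_apply_left]
          exact ⟨by simp, hpq.symm⟩
        · rw [Equiv.swap_apply_right]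
          exact ⟨by simp, hpq⟩
      · intro O hO hO'
        have h1 : S \ O ∪ T ∩ O = ∅ ∨ S \ O ∪ T ∩ O = {p, q} := by
          rw [hS0, hT2, Set.empty_sdiff, Set.empty_union]
          by_cases hp : p ∈ O
          · have hq : q ∈ O := by
              have := hO' p hp
              rwa [Equiv.swap_apply_left] at this
            right
            ext w
            simp only [Set.mem_inter_iff, Set.mem_insert_iff, Set.mem_singleton_iff]
            constructor
            · exact fun h => h.1
            · rintro (rfl | rfl)
              · exact ⟨Or.inl rfl, hp⟩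
              · exact ⟨Or.inr rfl, hq⟩
          · have hq : q ∉ O := by
              intro hq
              have := hO' q hq
              rw [Equiv.swap_apply_right] at this
              exact hp this
            left
            ext w
            simp only [Set.mem_inter_iff, Set.mem_insert_iff, Set.mem_singleton_iff, Set.mem_empty_iff_false,
              iff_false, not_and]
            rintro (rfl | rfl)
            · exact hp
            · exact hq
        refine ⟨?_, fun h => ?_⟩
        · rcases h1 with h1 | h1
          · left
            rw [h1, Set.ncard_empty]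
          · right
            rw [h1, ← hT2, hT]
        · rw [hS] at h
          exact absurd h (by norm_num)
  · rcases hT with hT | hT
    · have hT0 : T = ∅ := (Set.ncard_eq_zero (Set.toFinite T)).1 hT
      obtain ⟨p, q, hpq, hS2⟩ := Set.ncard_eq_two.1 hS
      refine ⟨Equiv.swap p q, Equiv.swap_apply_self p q, ?_, ?_⟩
      · intro w hw
        rw [hT0, hS2] at hw ⊢
        have hw' : w = p ∨ w = q := hw.2 (by simp)
        rcases hw' with rfl | rfl
        · rw [Equiv.swap_apply_left]
          exact ⟨by simp, hpq.symm⟩
        · rw [Equiv.swap_apply_right]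
          exact ⟨by simp, hpq⟩
      · intro O hO hO'
        have h1 : S \ O ∪ T ∩ O = ∅ ∨ S \ O ∪ T ∩ O = {p, q} := by
          rw [hT0, hS2, Set.empty_inter, Set.union_empty]
          by_cases hp : p ∈ O
          · have hq : q ∈ O := by
              have := hO' p hp
              rwa [Equiv.swap_apply_left] at this
            left
            ext w
            simp only [Set.mem_sdiff, Set.mem_insert_iff, Set.mem_singleton_iff, Set.mem_empty_iff_false,
              iff_false, not_and, not_not]
            rintro (rfl | rfl)
            · exact hp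
            · exact hq
          · have hq : q ∉ O := by
              intro hq
              have := hO' q hq
              rw [Equiv.swap_apply_right] at this
              exact hp this
            right
            ext w
            simp only [Set.mem_sdiff, Set.mem_insert_iff, Set.mem_singleton_iff]
            constructor
            · exact fun h => h.1
            · rintro (rfl | rfl)
              · exact ⟨Or.inl rfl, hp⟩
              · exact ⟨Or.inr rfl, hq⟩
        refine ⟨?_, fun _ h => ?_⟩
        · rcases h1 with h1 | h1
          · left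
            rw [h1, Set.ncard_empty]
          · right
            rw [h1, ← hS2, hS]
        · rw [hT] at h
          exact absurd h (by norm_num)
    · -- both have two elements
      have hc : (S \ T).ncard = (T \ S).ncard := by
        have h1 := Set.ncard_inter_add_ncard_sdiff_eq_ncard S T (Set.toFinite S)
        have h2 := Set.ncard_inter_add_ncard_sdiff_eq_ncard T S (Set.toFinite T)
        rw [Set.inter_comm] at h2
        omega
      obtain ⟨e⟩ : Nonempty ((S \ T : Set V) ≃ (T \ S : Set V)) := by
        have : Fintype (S \ T : Set V) := Fintype.ofFinite _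
        have : Fintype (T \ S : Set V) := Fintype.ofFinite _
        refine ⟨Fintype.equivOfCardEq ?_⟩
        rw [← Nat.card_eq_fintype_card, ← Nat.card_eq_fintype_card]
        exact hc
      obtain ⟨f, hf⟩ : ∃ f : V → V, f = fun w => if h : w ∈ S \ T then (e ⟨w, h⟩ : V) else
          if h : w ∈ T \ S then (e.symm ⟨w, h⟩ : V) else w := ⟨_, rfl⟩
      have hf1 : ∀ (w : V) (h : w ∈ S \ T), f w = e ⟨w, h⟩ := by
        intro w h
        rw [hf]
        simp only [dif_pos h]
      have hf2 : ∀ (w : V) (h : w ∈ T \ S), f w = e.symm ⟨w, h⟩ := by
        intro w h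
        have h' : w ∉ S \ T := fun h2 => h.2 h2.1
        rw [hf]
        simp only [dif_neg h', dif_pos h]
      have hf3 : ∀ w, w ∉ S \ T → w ∉ T \ S → f w = w := by
        intro w h h'
        rw [hf]
        simp only [dif_neg h', dif_neg h]
      have hm1 : ∀ w ∈ S \ T, f w ∈ T \ S := by
        intro w h
        rw [hf1 w h]
        exact (e ⟨w, h⟩).2
      have hm2 : ∀ w ∈ T \ S, f w ∈ S \ T := by
        intro w h
        rw [hf2 w h]
        exact (e.symm ⟨w, h⟩).2
      have hinv : Involutive f := by
        intro w
        by_cases h : w ∈ S \ T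
        · have h2 := hm1 w h
          rw [hf2 _ h2]
          have : (⟨f w, h2⟩ : (T \ S : Set V)) = e ⟨w, h⟩ := Subtype.ext (hf1 w h)
          rw [this, Equiv.symm_apply_apply]
        · by_cases h' : w ∈ T \ S
          · have h2 := hm2 w h'
            rw [hf1 _ h2]
            have : (⟨f w, h2⟩ : (S \ T : Set V)) = e.symm ⟨w, h'⟩ := Subtype.ext (hf2 w h')
            rw [this, Equiv.apply_symm_apply]
          · rw [hf3 w h h', hf3 w h h']
      refine ⟨f, hinv, ?_, ?_⟩
      · intro w hw
        by_cases h : w ∈ S
        · have h1 : w ∈ S \ T := ⟨h, hw.1 h⟩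
          have h2 := hm1 w h1
          refine ⟨⟨fun h3 => absurd h3 h2.2, fun h3 => absurd h2.1 h3⟩, fun h3 => ?_⟩
          rw [h3] at h2
          exact h2.2 h
        · have hT' : w ∈ T := by
            by_contra h4
            exact h (hw.2 h4)
          have h2 := hm2 w ⟨hT', h⟩
          refine ⟨⟨fun _ => h2.2, fun _ => h2.1⟩, fun h3 => ?_⟩
          rw [h3] at h2
          exact h h2.1
      · intro O hO hO'
        have h1 : (S ∩ O).ncard = (T ∩ O).ncard := by
          apply le_antisymm
          · refine Set.ncard_le_ncard_of_injOn f ?_ (hinv.injective.injOn) (Set.toFinite _)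
            intro w hw
            exact ⟨(hm1 w ⟨hw.1, (hO w hw.2).1 hw.1⟩).1, hO' w hw.2⟩
          · refine Set.ncard_le_ncard_of_injOn f ?_ (hinv.injective.injOn) (Set.toFinite _)
            intro w hw
            exact ⟨(hm2 w ⟨hw.1, fun h => (hO w hw.2).1 h hw.1⟩).1, hO' w hw.2⟩
        have h2 := Set.ncard_inter_add_ncard_sdiff_eq_ncard S O (Set.toFinite S)
        have h3 : (S \ O ∪ T ∩ O).ncard = (S \ O).ncard + (T ∩ O).ncard :=
          Set.ncard_union_eq (Set.disjoint_left.2 fun w hw hw' => hw.2 hw'.2) (Set.toFinite _) (Set.toFinite _)
        have h4 : (S \ O ∪ T ∩ O).ncard = 2 := by omega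
        exact ⟨Or.inr h4, fun _ _ => h4⟩

end H75T
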