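import Pool.Agent.Lib.H75T.Dih
import Pool.Agent.Lib.H75T.Pair

/-! # H75T, file Exch: the exchange lemma for sets covered by disjoint cycles

`Cov G A`: some subgraph `F` of `G` with all degrees `0` or `2` has degree `2` at all vertices of `A`.
`exchange`: if `A + b` and `A + d` are covered and there is a path from `b` to `d` such that no `A + r`, `r` an inner vertex
of it, is covered, then `A + b + d` is covered. -/

set_option autoImplicit false

namespace H75T

open Function

/-- The set `A` is covered by pairwise disjoint cycles of `G`. -/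
def Cov {V : Type*} (G : SimpleGraph V) (A : Set V) : Prop :=
  ∃ F : SimpleGraph V, F ≤ G ∧ (∀ v, (F.neighborSet v).ncard = 0 ∨ (F.neighborSet v).ncard = 2) ∧
    ∀ v ∈ A, (F.neighborSet v).ncard = 2

theorem Cov.mono {V : Type*} {G : SimpleGraph V} {A B : Set V} (h : Cov G B) (hAB : A ⊆ B) : Cov G A := by
  obtain ⟨F, h1, h2, h3⟩ := h
  exact ⟨F, h1, h2, fun v hv => h3 v (hAB hv)⟩

/-- the darts in the symmetric difference -/
private abbrev X {V : Type*} (F1 F2 : SimpleGraph V) : Type _ := {p : V × V // F1.Adj p.1 p.2 ↔ ¬ F2.Adj p.1 p.2}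

private theorem empty_of {V : Type*} [Finite V] {F : SimpleGraph V} {v : V} (h : (F.neighborSet v).ncard = 0) (w : V) :
    ¬ F.Adj v w := by
  rw [Set.ncard_eq_zero (Set.toFinite _)] at h
  intro h2
  have : w ∈ F.neighborSet v := h2
  rw [h] at this
  exact this

/-- The change of `F1` along a set of darts of the symmetric difference. -/
private theorem change {V : Type*} [Finite V] (F1 F2 : SimpleGraph V)
    (h1 : ∀ v, (F1.neighborSet v).ncard = 0 ∨ (F1.neighborSet v).ncard = 2)
    (h2 : ∀ v, (F2.neighborSet v).ncard = 0 ∨ (F2.neighborSet v).ncard = 2) {b d : V} (hbd : b ≠ d)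
    (hb1 : (F1.neighborSet b).ncard = 2) (hb2 : (F2.neighborSet b).ncard = 0)
    (hd1 : (F1.neighborSet d).ncard = 0) (hd2 : (F2.neighborSet d).ncard = 2) :
    ∃ F : SimpleGraph V, F ≤ F1 ⊔ F2 ∧
      (∀ v, v ≠ b → v ≠ d → ((F.neighborSet v).ncard = 0 ∨ (F.neighborSet v).ncard = 2) ∧
        ((F1.neighborSet v).ncard = 2 → (F2.neighborSet v).ncard = 2 → (F.neighborSet v).ncard = 2)) ∧
      (((F.neighborSet b).ncard = 2 ∧ (F.neighborSet d).ncard = 2) ∨
        ((F.neighborSet b).ncard = 1 ∧ (F.neighborSet d).ncard = 1)) := by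
  classical
  have hpair := fun v => pairing (F1.neighborSet v) (F2.neighborSet v) (h1 v) (h2 v)
  choose f hf1 hf2 hf3 using hpair
  -- the pairing, identity at `b` and `d`
  obtain ⟨g, hg⟩ : ∃ g : V → V → V, g = fun v w => if v = b ∨ v = d then w else f v w := ⟨_, rfl⟩
  have hgb : ∀ v w, (v = b ∨ v = d) → g v w = w := by
    intro v w h
    rw [hg]
    simp only [if_pos h]
  have hgo : ∀ v w, ¬ (v = b ∨ v = d) → g v w = f v w := by
    intro v w h
    rw [hg]
    simp only [if_neg h]
  have hgX : ∀ v w, (F1.Adj v w ↔ ¬ F2.Adj v w) → (F1.Adj v (g v w) ↔ ¬ F2.Adj v (g v w)) := by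
    intro v w h
    by_cases hv : v = b ∨ v = d
    · rw [hgb v w hv]
      exact h
    · rw [hgo v w hv]
      exact (hf2 v w h).1
  have hgg : ∀ v w, g v (g v w) = w := by
    intro v w
    by_cases hv : v = b ∨ v = d
    · rw [hgb v _ hv, hgb v w hv]
    · rw [hgo v _ hv, hgo v w hv]
      exact hf1 v w
  obtain ⟨α, hα⟩ : ∃ α : X F1 F2 → X F1 F2, α = fun z => ⟨(z.1.2, z.1.1), by
      have := z.2
      rw [F1.adj_comm, F2.adj_comm]
      exact this⟩ := ⟨_, rfl⟩
  obtain ⟨β, hβ⟩ : ∃ β : X F1 F2 → X F1 F2, β = fun z => ⟨(z.1.1, g z.1.1 z.1.2), hgX _ _ z.2⟩ := ⟨_, rfl⟩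
  have hα1 : ∀ z, (α z).1 = (z.1.2, z.1.1) := fun z => by rw [hα]
  have hβ1 : ∀ z, (β z).1 = (z.1.1, g z.1.1 z.1.2) := fun z => by rw [hβ]
  have hαi : Involutive α := by
    intro z
    apply Subtype.ext
    rw [hα1, hα1]
  have hβi : Involutive β := by
    intro z
    apply Subtype.ext
    rw [hβ1, hβ1]
    simp only [hgg]
  have hne : ∀ z : X F1 F2, z.1.1 ≠ z.1.2 := by
    intro z h
    have h3 := z.2
    rw [h] at h3
    exact F1.loopless.irrefl _ (h3.2 (F2.loopless.irrefl _))
  have hαf : ∀ z, α z ≠ z := by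
    intro z h
    have h3 := congrArg (fun z : X F1 F2 => z.1.1) h
    simp only [hα1] at h3
    exact hne z h3.symm
  -- the first dart
  obtain ⟨w0, w1, hw01, hw⟩ := Set.ncard_eq_two.1 hd2
  have hw0 : F2.Adj d w0 := by
    have : w0 ∈ F2.neighborSet d := by rw [hw]; simp
    exact this
  obtain ⟨x, hxdef⟩ : ∃ x : X F1 F2, x.1 = (d, w0) :=
    ⟨⟨(d, w0), ⟨fun h => absurd h (empty_of hd1 w0), fun h => absurd hw0 h⟩⟩, rfl⟩
  have hfixβ : ∀ z : X F1 F2, (z.1.1 = b ∨ z.1.1 = d) → β z = z := by
    intro z hz
    apply Subtype.ext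
    rw [hβ1, hgb _ _ hz]
  have hfixβ' : ∀ z : X F1 F2, β z = z → z.1.1 = b ∨ z.1.1 = d := by
    intro z hz
    by_contra hc
    have h3 := congrArg (fun z : X F1 F2 => z.1.2) hz
    simp only [hβ1] at h3
    rw [hgo _ _ hc] at h3
    exact (hf2 z.1.1 z.1.2 z.2).2 h3
  have hx : β x = x := hfixβ x (Or.inr (by rw [hxdef]))
  obtain ⟨O, y, hxO, hyO, hyx, hOα, hOβ, hyβ, hOf⟩ := dihedral α β hαi hβi hαf x hx
  -- the part of `O` at a vertex
  obtain ⟨Q, hQ⟩ : ∃ Q : V → Set V, Q = fun v => {w | ∃ z ∈ O, z.1 = (v, w)} := ⟨_, rfl⟩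
  have hQm : ∀ v w, w ∈ Q v ↔ ∃ z ∈ O, z.1 = (v, w) := fun v w => by rw [hQ]; rfl
  have hQs : ∀ v w, w ∈ Q v → v ∈ Q w := by
    intro v w h
    rw [hQm] at h ⊢
    obtain ⟨z, hz, hz1⟩ := h
    refine ⟨α z, hOα z hz, ?_⟩
    rw [hα1, hz1]
  have hQx : ∀ v w, w ∈ Q v → (F1.Adj v w ↔ ¬ F2.Adj v w) := by
    intro v w h
    rw [hQm] at h
    obtain ⟨z, -, hz1⟩ := h
    have := z.2
    rw [hz1] at this
    exact this
  have hQg : ∀ v w, w ∈ Q v → g v w ∈ Q v := by
    intro v w h
    rw [hQm] at h ⊢
    obtain ⟨z, hz, hz1⟩ := h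
    refine ⟨β z, hOβ z hz, ?_⟩
    rw [hβ1, hz1]
  -- fixed darts of `O`
  have hfix : ∀ v w, (v = b ∨ v = d) → w ∈ Q v → (v, w) = x.1 ∨ (v, w) = y.1 := by
    intro v w hv h
    rw [hQm] at h
    obtain ⟨z, hz, hz1⟩ := h
    rcases hOf z hz (hfixβ z (by rw [hz1]; exact hv)) with h4 | h4
    · left
      rw [← hz1, h4]
    · right
      rw [← hz1, h4]
  obtain ⟨F, hF⟩ : ∃ F : SimpleGraph V, ∀ v w, F.Adj v w ↔ (F1.Adj v w ∧ w ∉ Q v) ∨ (F2.Adj v w ∧ w ∈ Q v) := by
    refine ⟨⟨fun v w => (F1.Adj v w ∧ w ∉ Q v) ∨ (F2.Adj v w ∧ w ∈ Q v), ?_, ?_⟩, fun v w => Iff.rfl⟩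
    · refine ⟨fun v w h => ?_⟩
      rcases h with h | h
      · exact Or.inl ⟨h.1.symm, fun h3 => h.2 (hQs _ _ h3)⟩
      · exact Or.inr ⟨h.1.symm, hQs _ _ h.2⟩
    · refine ⟨fun v h => ?_⟩
      rcases h with h | h
      · exact F1.loopless.irrefl v h.1
      · exact F2.loopless.irrefl v h.1
  have hFn : ∀ v, F.neighborSet v = F1.neighborSet v \ Q v ∪ F2.neighborSet v ∩ Q v := by
    intro v
    ext w
    exact hF v w
  have hyn := hfixβ' y hyβ
  have hydef : y.1 = (y.1.1, y.1.2) := rfl
  refine ⟨F, ?_, ?_, ?_⟩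
  · intro v w h
    rcases (hF v w).1 h with h | h
    · exact Or.inl h.1
    · exact Or.inr h.1
  · intro v hvb hvd
    have h3 := hf3 v (Q v) (fun w hw => hQx v w hw) (fun w hw => by
      have := hQg v w hw
      rwa [hgo v w (by rintro (h | h); exacts [hvb h, hvd h])] at this)
    rw [hFn]
    exact h3
  · have hFb : F.neighborSet b = F1.neighborSet b \ Q b := by
      rw [hFn]
      rw [(Set.ncard_eq_zero (Set.toFinite _)).1 hb2, Set.empty_inter, Set.union_empty]
    have hFd : F.neighborSet d = Q d := by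
      rw [hFn]
      rw [(Set.ncard_eq_zero (Set.toFinite _)).1 hd1, Set.empty_sdiff, Set.empty_union]
      ext w
      constructor
      · exact fun h => h.2
      · intro h
        refine ⟨?_, h⟩
        by_contra hc
        exact empty_of hd1 w ((hQx d w h).2 hc)
    have hw0Q : w0 ∈ Q d := (hQm d w0).2 ⟨x, hxO, hxdef⟩
    have hyQ : y.1.2 ∈ Q y.1.1 := (hQm _ _).2 ⟨y, hyO, rfl⟩
    rcases hyn with hy | hy
    · -- the other end is at `b`
      right
      have hQd : Q d = {w0} := by
        ext w
        constructor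
        · intro h
          rcases hfix d w (Or.inr rfl) h with h4 | h4
          · rw [hxdef] at h4
            exact (Prod.mk.inj h4).2
          · exfalso
            rw [hydef, hy] at h4
            exact hbd (Prod.mk.inj h4).1.symm
        · rintro rfl
          exact hw0Q
      have hQb : Q b = {y.1.2} := by
        ext w
        constructor
        · intro h
          rcases hfix b w (Or.inl rfl) h with h4 | h4
          · exfalso
            rw [hxdef] at h4
            exact hbd (Prod.mk.inj h4).1
          · rw [hydef] at h4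
            exact (Prod.mk.inj h4).2
        · rintro rfl
          rw [hy] at hyQ
          exact hyQ
      rw [hy] at hyQ
      have hyb : y.1.2 ∈ F1.neighborSet b := by
        by_contra hc
        have h5 := hQx b _ hyQ
        exact hc (h5.2 (empty_of hb2 _))
      constructor
      · rw [hFb, hQb, Set.ncard_sdiff_singleton_of_mem hyb, hb1]
      · rw [hFd, hQd, Set.ncard_singleton]
    · left
      have hy2 : y.1.2 ≠ w0 := by
        intro h
        apply hyx
        apply Subtype.ext
        rw [hxdef, hydef, hy, h]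
      have hQb : Q b = ∅ := by
        ext w
        simp only [Set.mem_empty_iff_false, iff_false]
        intro h
        rcases hfix b w (Or.inl rfl) h with h4 | h4
        · rw [hxdef] at h4
          exact hbd (Prod.mk.inj h4).1
        · rw [hydef, hy] at h4
          exact hbd (Prod.mk.inj h4).1
      have hQd : Q d = {w0, y.1.2} := by
        ext w
        simp only [Set.mem_insert_iff, Set.mem_singleton_iff]
        constructor
        · intro h
          rcases hfix d w (Or.inr rfl) h with h4 | h4
          · rw [hxdef] at h4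
            exact Or.inl (Prod.mk.inj h4).2
          · rw [hydef] at h4
            exact Or.inr (Prod.mk.inj h4).2
        · rintro (rfl | rfl)
          · exact hw0Q
          · rw [hy] at hyQ
            exact hyQ
      constructor
      · rw [hFb, hQb, Set.sdiff_empty, hb1]
      · rw [hFd, hQd, Set.ncard_pair hy2.symm]

/-- **Exchange.** -/
theorem exchange {V : Type*} [Finite V] {G : SimpleGraph V} {A : Set V} {b d : V} (p : G.Walk b d) (hp : p.IsPath)
    (hr : ∀ r ∈ p.support, r ≠ b → r ≠ d → ¬ Cov G (insert r A)) (hb : Cov G (insert b A)) (hd : Cov G (insert d A)) :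
    Cov G (insert b (insert d A)) := by
  classical
  obtain ⟨F1, hF1, h1, h1A⟩ := hb
  obtain ⟨F2, hF2, h2, h2A⟩ := hd
  rcases h1 d with hd1 | hd1
  swap
  · refine ⟨F1, hF1, h1, fun v hv => ?_⟩
    rcases hv with rfl | rfl | hv
    · exact h1A _ (Set.mem_insert _ _)
    · exact hd1
    · exact h1A _ (Set.mem_insert_of_mem _ hv)
  rcases h2 b with hb2 | hb2
  swap
  · refine ⟨F2, hF2, h2, fun v hv => ?_⟩
    rcases hv with rfl | rfl | hv
    · exact hb2
    · exact h2A _ (Set.mem_insert _ _)
    · exact h2A _ (Set.mem_insert_of_mem _ hv)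
  have hb1 := h1A b (Set.mem_insert _ _)
  have hd2 := h2A d (Set.mem_insert _ _)
  have hbd : b ≠ d := by
    rintro rfl
    omega
  obtain ⟨F, hF, hFo, hFe⟩ := change F1 F2 h1 h2 hbd hb1 hb2 hd1 hd2
  have hFG : F ≤ G := hF.trans (sup_le hF1 hF2)
  have hAb : ∀ v ∈ A, v ≠ b ∧ v ≠ d := by
    intro v hv
    constructor
    · rintro rfl
      have := h2A v (Set.mem_insert_of_mem _ hv)
      omega
    · rintro rfl
      have := h1A v (Set.mem_insert_of_mem _ hv)
      omega
  have hFA : ∀ v ∈ A, (F.neighborSet v).ncard = 2 := by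
    intro v hv
    exact (hFo v (hAb v hv).1 (hAb v hv).2).2 (h1A v (Set.mem_insert_of_mem _ hv)) (h2A v (Set.mem_insert_of_mem _ hv))
  rcases hFe with ⟨hFb, hFd⟩ | ⟨hFb, hFd⟩
  · refine ⟨F, hFG, fun v => ?_, fun v hv => ?_⟩
    · by_cases hvb : v = b
      · right; rw [hvb, hFb]
      · by_cases hvd : v = d
        · right; rw [hvd, hFd]
        · exact (hFo v hvb hvd).1
    · rcases hv with rfl | rfl | hv
      · exact hFb
      · exact hFd
      · exact hFA v hv
  · -- add the path
    have hnil : ¬ p.Nil := fun h => hbd h.eq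
    -- inner vertices are off `F1` and `F2`
    have hin : ∀ r ∈ p.support, r ≠ b → r ≠ d → (F1.neighborSet r).ncard = 0 ∧ (F2.neighborSet r).ncard = 0 := by
      intro r hrs hrb hrd
      have h3 := hr r hrs hrb hrd
      constructor
      · rcases h1 r with h4 | h4
        · exact h4
        · exfalso
          apply h3
          refine ⟨F1, hF1, h1, fun v hv => ?_⟩
          rcases hv with rfl | hv
          · exact h4
          · exact h1A _ (Set.mem_insert_of_mem _ hv)
      · rcases h2 r with h4 | h4
        · exact h4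
        · exfalso
          apply h3
          refine ⟨F2, hF2, h2, fun v hv => ?_⟩
          rcases hv with rfl | hv
          · exact h4
          · exact h2A _ (Set.mem_insert_of_mem _ hv)
    have hFr : ∀ r ∈ p.support, r ≠ b → r ≠ d → ∀ w, ¬ F.Adj r w := by
      intro r hrs hrb hrd w hw'
      obtain ⟨h3, h4⟩ := hin r hrs hrb hrd
      rcases hF hw' with h5 | h5
      · exact empty_of h3 w h5
      · exact empty_of h4 w h5
    have hFbd : ¬ F.Adj b d := by
      intro h
      rcases hF h with h5 | h5
      · exact empty_of hd1 b h5.symm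
      · exact empty_of hb2 d h5
    -- neighbours of `b` and `d` in `F` are not inner vertices
    obtain ⟨P, hP⟩ : ∃ P : SimpleGraph V, P = p.toSubgraph.spanningCoe := ⟨_, rfl⟩
    have hPn : ∀ v, P.neighborSet v = p.toSubgraph.neighborSet v := by
      intro v
      rw [hP]
      rfl
    have hPG : P ≤ G := by
      rw [hP]
      exact p.toSubgraph.spanningCoe_le
    have hN : ∀ v, (F ⊔ P).neighborSet v = F.neighborSet v ∪ P.neighborSet v := by
      intro v
      ext w
      exact Iff.rfl
    have hPoff : ∀ v, v ∉ p.support → P.neighborSet v = ∅ := by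
      intro v hv
      rw [hPn]
      ext w
      simp only [Set.mem_empty_iff_false, iff_false]
      intro h
      exact hv (p.mem_verts_toSubgraph.1 (p.toSubgraph.edge_vert h))
    have hPin : ∀ r ∈ p.support, r ≠ b → r ≠ d → (P.neighborSet r).ncard = 2 := by
      intro r hrs hrb hrd
      obtain ⟨i, hi, hi2⟩ := SimpleGraph.Walk.mem_support_iff_exists_getVert.1 hrs
      rw [hPn, ← hi]
      refine hp.ncard_neighborSet_toSubgraph_internal_eq_two ?_ ?_
      · rintro rfl
        rw [SimpleGraph.Walk.getVert_zero] at hi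
        exact hrb hi.symm
      · rcases hi2.lt_or_eq with h | h
        · exact h
        · exfalso
          rw [h, SimpleGraph.Walk.getVert_length] at hi
          exact hrd hi.symm
    have hPb : P.neighborSet b = {p.snd} := by
      rw [hPn]
      exact hp.neighborSet_toSubgraph_startpoint hnil
    have hPd : P.neighborSet d = {p.penultimate} := by
      rw [hPn]
      exact hp.neighborSet_toSubgraph_endpoint hnil
    have hbs : ¬ F.Adj b p.snd := by
      intro h
      by_cases h3 : p.snd = d
      · rw [h3] at h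
        exact hFbd h
      · refine hFr p.snd (p.getVert_mem_support 1) ?_ h3 b h.symm
        intro h4
        rw [h4] at h
        exact F.loopless.irrefl b h
    have hds : ¬ F.Adj d p.penultimate := by
      intro h
      by_cases h3 : p.penultimate = b
      · rw [h3] at h
        exact hFbd h.symm
      · refine hFr p.penultimate (p.getVert_mem_support (p.length - 1)) h3 ?_ d h.symm
        intro h4
        rw [h4] at h
        exact F.loopless.irrefl d h
    have hb2' : ((F ⊔ P).neighborSet b).ncard = 2 := by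
      have h3 : p.snd ∉ F.neighborSet b := hbs
      rw [hN, hPb, Set.union_singleton, Set.ncard_insert_of_notMem h3 (Set.toFinite _), hFb]
    have hd2' : ((F ⊔ P).neighborSet d).ncard = 2 := by
      have h3 : p.penultimate ∉ F.neighborSet d := hds
      rw [hN, hPd, Set.union_singleton, Set.ncard_insert_of_notMem h3 (Set.toFinite _), hFd]
    refine ⟨F ⊔ P, sup_le hFG hPG, fun v => ?_, fun v hv => ?_⟩
    · by_cases hvb : v = b
      · right; rw [hvb, hb2']
      · by_cases hvd : v = d
        · right; rw [hvd, hd2']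
        · by_cases hvs : v ∈ p.support
          · right
            have h3 : F.neighborSet v = ∅ := by
              ext w
              simp only [Set.mem_empty_iff_false, iff_false]
              exact hFr v hvs hvb hvd w
            rw [hN, h3, Set.empty_union]
            exact hPin v hvs hvb hvd
          · rw [hN, hPoff v hvs, Set.union_empty]
            exact (hFo v hvb hvd).1
    · rcases hv with rfl | rfl | hv
      · exact hb2'
      · exact hd2'
      · have hvs : v ∉ p.support := by
          intro hvs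
          have h3 := (hin v hvs (hAb v hv).1 (hAb v hv).2).1
          have h4 := h1A v (Set.mem_insert_of_mem _ hv)
          omega
        rw [hN, hPoff v hvs, Set.union_empty]
        exact hFA v hv

end H75T
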